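import Pool.Agent.H84.SM.Targets3

/-!
# Row BRX of the board `smc_modules`
-/

set_option autoImplicit false

namespace Pool.Agent.H21.SM

open MvPolynomial SC Pool.Agent.H27.LV Pool.Agent.H84.SM

theorem pf_BRX : T_BRX := by
  intro h k K _ _ _ _ _ _ htr v u n hn hv D hD
  obtain ⟨φ, h1, h2, h3⟩ := h k K htr v u n hn hv
  exact ⟨φ, h1, h2.lat, h2.ord, h3 D hD⟩

end Pool.Agent.H21.SM
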