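import Pool.Agent.H84.SM.Targets3

/-!
# Row FOX of the board `smc_modules`
-/

set_option autoImplicit false

namespace Pool.Agent.H21.SM

open MvPolynomial SC Pool.Agent.H27.LV Pool.Agent.H84.SM

variable {k K : Type} [Field k] [Field K] [Algebra k K]

theorem fox_po2 (v : DV k K) (X Y : K) :
    (poleOrder v ![X, Y] : ℤ) = -(min 0 (min (v.ord X) (v.ord Y))) := by
  unfold poleOrder
  have h1 : (Finset.univ : Finset (Fin 2)).sup (fun i => (-(v.ord ((![X, Y] : Fin 2 → K) i))).toNat) =
      max (-(v.ord X)).toNat (-(v.ord Y)).toNat := by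
    rw [show (Finset.univ : Finset (Fin 2)) = {0, 1} by rfl]
    simp
  rw [h1]
  push_cast
  simp only [Int.toNat_eq_max]
  omega

theorem fox_univ : ∀ j : Fin 3, (Finset.univ : Finset (Fin 3)) = {j, j + 1, j + 2} := by
  decide

theorem fox_cases : ∀ i j : Fin 3, i = j ∨ i = j + 1 ∨ i = j + 2 := by
  decide

theorem fox_po (v : DV k K) (x : Fin 3 → K) (j : Fin 3) (hj : x j = 1) :
    poleOrder v x = poleOrder v ![x (j + 1), x (j + 2)] := by
  have h0 : v.ord (1 : K) = 0 := v.ord_one
  have h1 : (Finset.univ : Finset (Fin 3)).sup (fun i => (-(v.ord (x i))).toNat) =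
      max (-(v.ord (x j))).toNat (max (-(v.ord (x (j + 1)))).toNat (-(v.ord (x (j + 2)))).toNat) := by
    have hu : (Finset.univ : Finset (Fin 3)) = {j, j + 1, j + 2} := fox_univ j
    rw [hu]
    simp
  have h2 : (Finset.univ : Finset (Fin 2)).sup
      (fun i => (-(v.ord ((![x (j + 1), x (j + 2)] : Fin 2 → K) i))).toNat) =
      max (-(v.ord (x (j + 1)))).toNat (-(v.ord (x (j + 2)))).toNat := by
    rw [show (Finset.univ : Finset (Fin 2)) = {0, 1} by rfl]
    simp
  unfold poleOrder
  rw [h1, h2, hj, h0]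
  simp

theorem fox_ev (x : Fin 3 → K) (j : Fin 3) (hj : x j = 1) (G : MvPolynomial (Fin 3) k) :
    aeval (![1, x (j + 1), x (j + 2)] : Fin 3 → K) (rename (fun i => i - j) G) = aeval x G := by
  rw [aeval_rename]
  have : (![1, x (j + 1), x (j + 2)] : Fin 3 → K) ∘ (fun i => i - j) = x := by
    funext i
    simp only [Function.comp]
    obtain rfl | rfl | rfl := fox_cases i j
    · simp [hj]
    · simp
    · simp
  rw [this]

theorem pf_FOX : T_FOX := by
  intro h k _ _ _ G d j hd hG hI Q hQ
  obtain ⟨C, hC⟩ := h k d (rename (fun i => i - j) G) Q hQ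
  refine ⟨C, ?_⟩
  intro K _ _ _ htr D hD x S hx hj hS hDx hQx
  right
  have hadj : IntermediateField.adjoin k {x (j + 1), x (j + 2)} = ⊤ := by
    rw [eq_top_iff, ← hx, IntermediateField.adjoin_le_iff]
    rintro _ ⟨i, rfl⟩
    obtain rfl | rfl | rfl := fox_cases i j
    · show x i ∈ _
      rw [hj]
      exact one_mem _
    · exact IntermediateField.subset_adjoin _ _ (by simp)
    · exact IntermediateField.subset_adjoin _ _ (by simp)
  have h1 := hC K htr (x (j + 1)) (x (j + 2)) D hadj hD (fun _ => hQx)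
    (by rw [fox_ev x j hj]; exact hS.ne) S (fun v hv => by
      rw [fox_ev x j hj, hS.off v hv, fox_po v x j hj, fox_po2]
      ring)
  have h2 : deg k x = deg k ![x (j + 1), x (j + 2)] := by
    unfold deg
    exact finsum_congr fun v => fox_po v x j hj
  rw [h2]
  exact (Nat.le_mul_of_pos_left _ (by omega)).trans h1

end Pool.Agent.H21.SM
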